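import Pool.Agent.U365.AQG.A

set_option autoImplicit false

/-! The form of `general` for properties of all integers (not only of the even ones), and for the even `m`. -/

namespace Pool.Agent.U365.AQG

open Finset Filter Topology

theorem general' (θ : ℝ) (hθ0 : 0 < θ) (hθ1 : θ < 1) (Q : ℕ → Prop) (hE : Pool.Agent.N733.AQ.EBT θ Q) (f : ℕ → ℕ)
    (c α β : ℤ) (C : ℕ) (ρ : ℝ) (hf : Moderate f c) (hc : c ≠ 0) (hα : α ≠ 0) (hβ : β ≠ 0) (hρ : 0 < ρ) :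
    AlmostAll (fun m => LargePrime (1 - θ + ρ) m → (m : ℝ) / Real.log m ^ C ≤ ((α * m + β * f m : ℤ) : ℝ) →
      Q (α * m + β * f m).toNat) := by
  classical
  rw [almostAll_iff]
  intro δ hδ
  obtain ⟨N₀, h⟩ := Pool.Agent.N733.AQ.main (tm_of hf) hc α β hα hβ θ hθ0 hθ1 Q hE (min ρ θ)
    (lt_min hρ hθ0) (min_le_right _ _) C (δ / 2) (by positivity)
  obtain ⟨N₁, hN₁⟩ := exists_nat_gt (2 / δ)
  refine ⟨N₀ + N₁, fun N hN => ?_⟩
  have h1 := h N (by omega)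
  have h2 : (1 : ℝ) ≤ δ / 2 * N := by
    have e1 : (N₁ : ℝ) ≤ N := by exact_mod_cast (by omega : N₁ ≤ N)
    have e2 : 2 / δ ≤ N := by linarith
    rw [div_le_iff₀ hδ] at e2
    linarith
  have h3 : ((Icc 1 N).filter (fun m : ℕ => ¬ (LargePrime (1 - θ + ρ) m → (m : ℝ) / Real.log m ^ C ≤
      ((α * m + β * f m : ℤ) : ℝ) → Q (α * m + β * f m).toNat))) ⊆
      insert 1 ((Icc 1 N).filter (fun m => Pool.Agent.N733.AQ.LP (1 - θ + min ρ θ) m ∧
        (m : ℝ) / Real.log m ^ C ≤ ((α * m + β * f m : ℤ) : ℝ) ∧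
        ¬ Q (α * m + β * f m).toNat)) := by
    intro m hm
    rw [mem_filter] at hm
    obtain ⟨hmx, hm2⟩ := hm
    push Not at hm2
    obtain ⟨⟨p, hp, hpm, hpτ⟩, g1, g3⟩ := hm2
    rw [mem_insert, mem_filter]
    have hm1 := (mem_Icc.1 hmx).1
    rcases Nat.lt_or_ge 1 m with h4 | h4
    · right
      have hm1r : (1 : ℝ) < m := by exact_mod_cast h4
      refine ⟨hmx, ⟨p, hp, hpm, ?_⟩, g1, g3⟩
      refine le_trans ?_ hpτ
      apply Real.rpow_le_rpow_of_exponent_le hm1r.le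
      linarith [min_le_left ρ θ]
    · left
      omega
  have h4 : (((Icc 1 N).filter (fun m : ℕ => ¬ (LargePrime (1 - θ + ρ) m → (m : ℝ) / Real.log m ^ C ≤
      ((α * m + β * f m : ℤ) : ℝ) → Q (α * m + β * f m).toNat))).card : ℝ) ≤
      (((Icc 1 N).filter (fun m => Pool.Agent.N733.AQ.LP (1 - θ + min ρ θ) m ∧
        (m : ℝ) / Real.log m ^ C ≤ ((α * m + β * f m : ℤ) : ℝ) ∧
        ¬ Q (α * m + β * f m).toNat)).card : ℝ) + 1 := by
    exact_mod_cast (card_le_card h3).trans (card_insert_le _ _)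
  have h5 : (((Icc 1 N).filter (fun m => Pool.Agent.N733.AQ.LP (1 - θ + min ρ θ) m ∧
        (m : ℝ) / Real.log m ^ C ≤ ((α * m + β * f m : ℤ) : ℝ) ∧
        ¬ Q (α * m + β * f m).toNat)).card : ℝ) ≤ δ / 2 * N :=
    le_trans (Nat.cast_le.2 (card_mono' (fun m hm => hm))) h1
  refine le_trans (Nat.cast_le.2 (card_mono' (fun m hm => hm))) (h4.trans ((add_le_add_left h5 1).trans ?_))
  linarith

/-- the sum of the proper divisors and the cototient, for even `m` -/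
theorem both' (θ : ℝ) (hθ0 : 0 < θ) (hθ1 : θ ≤ 7 / 10) (Q : ℕ → Prop) (hE : Pool.Agent.N733.AQ.EBT θ Q) (n₀ : ℕ)
    (ρ : ℝ) (hρ : 0 < ρ) :
    AlmostAll (fun m => Even m → LargePrime (1 - θ + ρ) m →
      (n₀ ≤ aliquot m ∧ Q (aliquot m)) ∧ (n₀ ≤ m - Nat.totient m ∧ Q (m - Nat.totient m))) := by
  have h := both θ hθ0 hθ1 Q (fun ρ hρ A T => by
    obtain ⟨X₀, h⟩ := hE ρ hρ A T
    refine ⟨X₀, fun X hX q hq hqX a ha V hV => h X hX q hq hqX a ha V (fun v hv => ?_)⟩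
    obtain ⟨e1, e2, e3⟩ := hV v hv
    exact ⟨e1, e2, fun hc => e3 (fun _ => hc)⟩) n₀ ρ hρ
  refine almostAll_and h h 0 (fun m _ h1 _ he hl => ?_)
  obtain ⟨⟨a1, _, a3⟩, b1, _, b3⟩ := h1 he hl
  exact ⟨⟨a1, a3⟩, b1, b3⟩

end Pool.Agent.U365.AQG
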