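import Pool.Agent.N733.AQ.E

/-!
# The values `α m + β f(m)` of similar functions as the aliquot sums: all properties which hold with few exceptions in classes

The general form of the argument of `MP_967f73_nt.AliquotSums` (starting file): let `Q` be any property of integers which
has few exceptions among the even integers in the residue classes `a mod q`, `q ≤ X ^ (θ - ρ)`, `gcd (a, q) ≤ (log X)^T`
(`Pool.Agent.N733.AQ.EBT`). Then almost all the even values of `g(m) = α m + β f(m)`, where `m` has a prime factor larger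
than `m ^ (1 - θ + ρ)` and `g(m)` is not very small, have the property `Q`. This applies to the sum of the proper divisors
and to `m - φ(m)`, for a proportion of at least `θ` of all even `m`.
-/

set_option autoImplicit false

namespace Pool.Agent.U365.AQG

open Finset Filter Topology

/-- A positive multiplicative function with `f m ≤ m (1 + log m)^C` and `f p = p + c` for all large primes `p`. -/
structure Moderate (f : ℕ → ℕ) (c : ℤ) : Prop where
  mul : ∀ m n : ℕ, Nat.Coprime m n → f (m * n) = f m * f n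
  pos : ∀ m : ℕ, 1 ≤ m → 1 ≤ f m
  growth : ∃ C : ℕ, ∀ m : ℕ, 1 ≤ m → (f m : ℝ) ≤ m * (1 + Real.log m) ^ C
  prime : ∃ P : ℕ, ∀ p : ℕ, P ≤ p → p.Prime → (f p : ℤ) = p + c

/-- `m` has a prime factor `p ≥ m ^ τ`. -/
def LargePrime (τ : ℝ) (m : ℕ) : Prop := ∃ p : ℕ, p.Prime ∧ p ∣ m ∧ (m : ℝ) ^ τ ≤ p

open Classical in
/-- The proportion of the positive integers `m ≤ N` without the property `P` tends to `0`. -/
def AlmostAll (P : ℕ → Prop) : Prop :=
  Tendsto (fun N : ℕ => (((Icc 1 N).filter (fun m => ¬ P m)).card : ℝ) / N) atTop (𝓝 0)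

/-- The sum of the proper divisors. -/
def aliquot (m : ℕ) : ℕ := ∑ d ∈ m.properDivisors, d

theorem tm_of {f : ℕ → ℕ} {c : ℤ} (hf : Moderate f c) : Pool.Agent.N733.AQ.TM f c :=
  ⟨hf.mul, hf.pos, hf.growth, hf.prime⟩

open Classical in
theorem almostAll_iff (P : ℕ → Prop) : AlmostAll P ↔ ∀ ε : ℝ, 0 < ε → ∃ N₀ : ℕ, ∀ N : ℕ, N₀ ≤ N →
    (((Icc 1 N).filter (fun m => ¬ P m)).card : ℝ) ≤ ε * N := by
  unfold AlmostAll
  rw [Metric.tendsto_atTop]
  constructor
  · intro h ε hε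
    obtain ⟨N₀, hN₀⟩ := h ε hε
    refine ⟨max N₀ 1, fun N hN => ?_⟩
    have h1 := hN₀ N (le_trans (le_max_left _ _) hN)
    have h2 : (0 : ℝ) < N := by exact_mod_cast (le_trans (le_max_right N₀ 1) hN)
    rw [Real.dist_eq, sub_zero, abs_of_nonneg (by positivity), div_lt_iff₀ h2] at h1
    exact h1.le
  · intro h ε hε
    obtain ⟨N₀, hN₀⟩ := h (ε / 2) (by positivity)
    refine ⟨max N₀ 1, fun N hN => ?_⟩
    have h1 := hN₀ N (le_trans (le_max_left _ _) hN)
    have h2 : (0 : ℝ) < N := by exact_mod_cast (le_trans (le_max_right N₀ 1) hN)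
    rw [Real.dist_eq, sub_zero, abs_of_nonneg (by positivity), div_lt_iff₀ h2]
    nlinarith

theorem almostAll_and {P Q R : ℕ → Prop} (hP : AlmostAll P) (hQ : AlmostAll Q) (m₀ : ℕ)
    (h : ∀ m, m₀ ≤ m → P m → Q m → R m) : AlmostAll R := by
  classical
  rw [almostAll_iff] at *
  intro ε hε
  obtain ⟨N₁, h₁⟩ := hP (ε / 3) (by positivity)
  obtain ⟨N₂, h₂⟩ := hQ (ε / 3) (by positivity)
  obtain ⟨N₃, h₃⟩ := exists_nat_gt (3 * m₀ / ε)
  refine ⟨max N₁ (max N₂ N₃), fun N hN => ?_⟩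
  have b1 := h₁ N (le_trans (le_max_left _ _) hN)
  have b2 := h₂ N (le_trans (le_trans (le_max_left _ _) (le_max_right _ _)) hN)
  have b3 : (N₃ : ℝ) ≤ N := by exact_mod_cast (le_trans (le_trans (le_max_right _ _) (le_max_right _ _)) hN)
  have b4 : (m₀ : ℝ) ≤ ε / 3 * N := by
    have : 3 * m₀ / ε ≤ N := by linarith
    rw [div_le_iff₀ hε] at this
    linarith
  have hsub : (Icc 1 N).filter (fun m => ¬ R m) ⊆
      ((Icc 1 N).filter (fun m => ¬ P m) ∪ (Icc 1 N).filter (fun m => ¬ Q m)) ∪ Icc 1 m₀ := by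
    intro m hm
    rw [mem_filter, mem_Icc] at hm
    rw [mem_union, mem_union, mem_filter, mem_filter, mem_Icc, mem_Icc]
    by_cases h1 : P m
    · by_cases h2 : Q m
      · by_cases h3 : m₀ ≤ m
        · exact absurd (h m h3 h1 h2) hm.2
        · right
          omega
      · left; right
        exact ⟨hm.1, h2⟩
    · left; left
      exact ⟨hm.1, h1⟩
  have hc : ((Icc 1 N).filter (fun m => ¬ R m)).card ≤
      (((Icc 1 N).filter (fun m => ¬ P m)).card + ((Icc 1 N).filter (fun m => ¬ Q m)).card) + m₀ := by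
    refine (card_le_card hsub).trans ((card_union_le _ _).trans ?_)
    have := card_union_le ((Icc 1 N).filter (fun m => ¬ P m)) ((Icc 1 N).filter (fun m => ¬ Q m))
    rw [Nat.card_Icc]
    omega
  have hc' : (((Icc 1 N).filter (fun m => ¬ R m)).card : ℝ) ≤
      ((((Icc 1 N).filter (fun m => ¬ P m)).card : ℝ) + ((Icc 1 N).filter (fun m => ¬ Q m)).card) + m₀ := by
    exact_mod_cast hc
  linarith

theorem card_mono' {N : ℕ} {P Q : ℕ → Prop} {dP : DecidablePred P} {dQ : DecidablePred Q} (h : ∀ m, P m → Q m) :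
    (@Finset.filter _ P dP (Icc 1 N)).card ≤ (@Finset.filter _ Q dQ (Icc 1 N)).card :=
  card_le_card (fun m hm => Finset.mem_filter.2 ⟨(Finset.mem_filter.1 hm).1, h m (Finset.mem_filter.1 hm).2⟩)

theorem general (θ : ℝ) (hθ0 : 0 < θ) (hθ1 : θ < 1) (Q : ℕ → Prop)
    (hE : Pool.Agent.N733.AQ.EBT θ (fun n => 2 ∣ n → Q n)) (f : ℕ → ℕ) (c α β : ℤ) (C : ℕ) (ρ : ℝ)
    (hf : Moderate f c) (hc : c ≠ 0) (hα : α ≠ 0) (hβ : β ≠ 0) (hρ : 0 < ρ) :
    AlmostAll (fun m => LargePrime (1 - θ + ρ) m → (m : ℝ) / Real.log m ^ C ≤ ((α * m + β * f m : ℤ) : ℝ) →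
      Even (α * m + β * f m) → Q (α * m + β * f m).toNat) := by
  classical
  rw [almostAll_iff]
  intro δ hδ
  obtain ⟨N₀, h⟩ := Pool.Agent.N733.AQ.main (tm_of hf) hc α β hα hβ θ hθ0 hθ1 (fun n => 2 ∣ n → Q n) hE (min ρ θ)
    (lt_min hρ hθ0) (min_le_right _ _) C (δ / 2) (by positivity)
  obtain ⟨N₁, hN₁⟩ := exists_nat_gt (2 / δ)
  refine ⟨N₀ + N₁, fun N hN => ?_⟩
  have h1 := h N (by omega)
  have h2 : (1 : ℝ) ≤ δ / 2 * N := by
    have e1 : (N₁ : ℝ) ≤ N := by exact_mod_cast (by omega : N₁ ≤ N)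
    have e2 : 2 / δ ≤ N := by linarith
    rw [div_le_iff₀ hδ] at e2
    linarith
  have h3 : ((Icc 1 N).filter (fun m : ℕ => ¬ (LargePrime (1 - θ + ρ) m → (m : ℝ) / Real.log m ^ C ≤
      ((α * m + β * f m : ℤ) : ℝ) → Even (α * m + β * f m) → Q (α * m + β * f m).toNat))) ⊆
      insert 1 ((Icc 1 N).filter (fun m => Pool.Agent.N733.AQ.LP (1 - θ + min ρ θ) m ∧
        (m : ℝ) / Real.log m ^ C ≤ ((α * m + β * f m : ℤ) : ℝ) ∧
        ¬ (2 ∣ (α * m + β * f m).toNat → Q (α * m + β * f m).toNat))) := by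
    intro m hm
    rw [mem_filter] at hm
    obtain ⟨hmx, hm2⟩ := hm
    push Not at hm2
    obtain ⟨⟨p, hp, hpm, hpτ⟩, g1, g2, g3⟩ := hm2
    rw [mem_insert, mem_filter]
    have hm1 := (mem_Icc.1 hmx).1
    rcases Nat.lt_or_ge 1 m with h4 | h4
    · right
      have hm1r : (1 : ℝ) < m := by exact_mod_cast h4
      refine ⟨hmx, ⟨p, hp, hpm, ?_⟩, g1, ?_⟩
      · refine le_trans ?_ hpτ
        apply Real.rpow_le_rpow_of_exponent_le hm1r.le
        linarith [min_le_left ρ θ]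
      · push Not
        refine ⟨?_, g3⟩
        have hlog : 0 < Real.log m := Real.log_pos hm1r
        have hpos : (0 : ℝ) < ((α * m + β * f m : ℤ) : ℝ) := lt_of_lt_of_le (by positivity) g1
        have hpos' : 0 < α * m + β * f m := by exact_mod_cast hpos
        have e : (((α * m + β * f m).toNat : ℕ) : ℤ) = α * m + β * f m := Int.toNat_of_nonneg hpos'.le
        have : (2 : ℤ) ∣ (((α * m + β * f m).toNat : ℕ) : ℤ) := by
          rw [e]
          exact even_iff_two_dvd.1 g2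
        exact_mod_cast this
    · left
      omega
  have h4 : (((Icc 1 N).filter (fun m : ℕ => ¬ (LargePrime (1 - θ + ρ) m → (m : ℝ) / Real.log m ^ C ≤
      ((α * m + β * f m : ℤ) : ℝ) → Even (α * m + β * f m) → Q (α * m + β * f m).toNat))).card : ℝ) ≤
      (((Icc 1 N).filter (fun m => Pool.Agent.N733.AQ.LP (1 - θ + min ρ θ) m ∧
        (m : ℝ) / Real.log m ^ C ≤ ((α * m + β * f m : ℤ) : ℝ) ∧
        ¬ (2 ∣ (α * m + β * f m).toNat → Q (α * m + β * f m).toNat))).card : ℝ) + 1 := by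
    exact_mod_cast (card_le_card h3).trans (card_insert_le _ _)
  have h5 : (((Icc 1 N).filter (fun m => Pool.Agent.N733.AQ.LP (1 - θ + min ρ θ) m ∧
        (m : ℝ) / Real.log m ^ C ≤ ((α * m + β * f m : ℤ) : ℝ) ∧
        ¬ (2 ∣ (α * m + β * f m).toNat → Q (α * m + β * f m).toNat))).card : ℝ) ≤ δ / 2 * N :=
    le_trans (Nat.cast_le.2 (card_mono' (fun m hm => hm))) h1
  refine le_trans (Nat.cast_le.2 (card_mono' (fun m hm => hm))) (h4.trans ((add_le_add_left h5 1).trans ?_))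
  linarith

theorem moderate_totient : Moderate Nat.totient (-1) :=
  ⟨Pool.Agent.N733.AQ.tm_totient.mul, Pool.Agent.N733.AQ.tm_totient.pos, Pool.Agent.N733.AQ.tm_totient.growth,
    Pool.Agent.N733.AQ.tm_totient.prime⟩

theorem moderate_sigma : Moderate (fun m => ∑ d ∈ m.divisors, d) 1 :=
  ⟨Pool.Agent.N733.AQ.tm_sigma.mul, Pool.Agent.N733.AQ.tm_sigma.pos, Pool.Agent.N733.AQ.tm_sigma.growth,
    Pool.Agent.N733.AQ.tm_sigma.prime⟩

theorem squarefree_at (τ : ℝ) (hτ : 0 < τ) :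
    AlmostAll (fun m => ∀ p : ℕ, (m : ℝ) ^ τ ≤ p → ¬ p ^ 2 ∣ m) := by
  classical
  rw [almostAll_iff]
  intro ε hε
  obtain ⟨s, hs⟩ := exists_nat_gt (2 / ε)
  have hse : 0 < 2 / ε := by positivity
  have hs0 : (0 : ℝ) < s := by linarith
  have hs1 : 1 ≤ s := by exact_mod_cast hs0
  have ht := ((tendsto_rpow_atTop hτ).comp (tendsto_natCast_atTop_atTop (R := ℝ))).eventually_gt_atTop (s : ℝ)
  rw [eventually_atTop] at ht
  obtain ⟨m₀, hm₀⟩ := ht
  obtain ⟨N₁, hN₁⟩ := exists_nat_gt (2 * m₀ / ε)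
  refine ⟨N₁, fun N hN => ?_⟩
  have hsub : (Icc 1 N).filter (fun m : ℕ => ¬ ∀ p : ℕ, (m : ℝ) ^ τ ≤ p → ¬ p ^ 2 ∣ m) ⊆
      (Icc 1 N).filter (fun m => ∃ t : ℕ, s < t ∧ t ^ 2 ∣ m) ∪ Icc 1 m₀ := by
    intro m hm
    rw [mem_filter] at hm
    obtain ⟨hmx, hm2⟩ := hm
    push Not at hm2
    obtain ⟨p, hp1, hp2⟩ := hm2
    rw [mem_union, mem_filter]
    by_cases h : m₀ ≤ m
    · left
      refine ⟨hmx, p, ?_, hp2⟩
      have : (s : ℝ) < p := lt_of_lt_of_le (hm₀ m h) hp1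
      exact_mod_cast this
    · right
      exact mem_Icc.2 ⟨(mem_Icc.1 hmx).1, by omega⟩
  have h1 := (card_le_card hsub).trans (card_union_le _ _)
  rw [Nat.card_Icc, Nat.add_sub_cancel] at h1
  have h2 : (((Icc 1 N).filter (fun m : ℕ => ¬ ∀ p : ℕ, (m : ℝ) ^ τ ≤ p → ¬ p ^ 2 ∣ m)).card : ℝ) ≤
      (((Icc 1 N).filter (fun m => ∃ t : ℕ, s < t ∧ t ^ 2 ∣ m)).card : ℝ) + m₀ := by exact_mod_cast h1
  have h3 := Pool.Agent.N733.AQ.few_sq N s hs1
  have hN' : 2 * m₀ / ε ≤ N := by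
    have : (N₁ : ℝ) ≤ N := by exact_mod_cast hN
    linarith
  rw [div_le_iff₀ hε] at hN'
  have h4 : (N : ℝ) / s ≤ ε / 2 * N := by
    rw [div_le_iff₀ hs0]
    rw [div_lt_iff₀ hε] at hs
    have hN0 : (0 : ℝ) ≤ N := Nat.cast_nonneg _
    nlinarith
  refine h2.trans ?_
  linarith

theorem log_large : ∃ m₀ : ℕ, ∀ m : ℕ, m₀ ≤ m → 2 ≤ Real.log (m : ℝ) := by
  have hlog := (Real.tendsto_log_atTop.comp (tendsto_natCast_atTop_atTop (R := ℝ))).eventually_ge_atTop 2
  rw [eventually_atTop] at hlog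
  exact hlog

theorem both (θ : ℝ) (hθ0 : 0 < θ) (hθ1 : θ ≤ 7 / 10) (Q : ℕ → Prop)
    (hE : Pool.Agent.N733.AQ.EBT θ (fun n => 2 ∣ n → Q n)) (n₀ : ℕ) (ρ : ℝ) (hρ : 0 < ρ) :
    AlmostAll (fun m => Even m → LargePrime (1 - θ + ρ) m →
      (n₀ ≤ aliquot m ∧ Even (aliquot m) ∧ Q (aliquot m)) ∧
        (n₀ ≤ m - Nat.totient m ∧ Even (m - Nat.totient m) ∧ Q (m - Nat.totient m))) := by
  obtain ⟨m₁, hm₁⟩ := log_large
  have h1 := general θ hθ0 (by linarith) Q hE (fun m => ∑ d ∈ m.divisors, d) 1 (-1) 1 1 ρ moderate_sigma (by norm_num)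
    (by norm_num) (by norm_num) hρ
  have h2 := general θ hθ0 (by linarith) Q hE Nat.totient (-1) 1 (-1) 1 ρ moderate_totient (by norm_num) (by norm_num)
    (by norm_num) hρ
  have h3 := squarefree_at (1 - θ + ρ) (by linarith)
  refine almostAll_and h1 (almostAll_and h2 h3 0 (R := fun m => (LargePrime (1 - θ + ρ) m →
      (m : ℝ) / Real.log m ^ 1 ≤ ((1 * m + -1 * Nat.totient m : ℤ) : ℝ) →
      Even (1 * (m : ℤ) + -1 * Nat.totient m) → Q (1 * (m : ℤ) + -1 * Nat.totient m).toNat) ∧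
      ∀ p : ℕ, (m : ℝ) ^ (1 - θ + ρ) ≤ p → ¬ p ^ 2 ∣ m) (fun m _ a b => ⟨a, b⟩)) (2 * n₀ + m₁ + 8 ^ 10) ?_
  rintro m hm g1 ⟨g2, g3⟩ he hLP
  obtain ⟨t, ht⟩ := he
  have ht' : m = 2 * t := by omega
  have h8 : (8 : ℕ) ^ 10 ≤ m := by omega
  have hlm : 2 ≤ Real.log (m : ℝ) := hm₁ m (by omega)
  have hm0 : (0 : ℝ) < m := by
    have : 0 < m := by
      have : (0 : ℕ) < 8 ^ 10 := by norm_num
      omega
    exact_mod_cast this
  have hdiv : (m : ℝ) / Real.log m ^ 1 ≤ m / 2 := by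
    rw [pow_one]
    exact div_le_div_of_nonneg_left hm0.le (by norm_num) hlm
  have htr : (m : ℝ) = 2 * t := by exact_mod_cast ht'
  have ht1 : 1 ≤ t := by omega
  -- the totient
  have htot : Nat.totient m ≤ t := by rw [ht']; exact Pool.Agent.N733.AQ.totient_two_mul_le t
  have htote : Even (Nat.totient m) := Nat.totient_even (by omega)
  have hsig : 3 * t ≤ ∑ d ∈ m.divisors, d := by rw [ht']; exact Pool.Agent.N733.AQ.aliquot_ge t ht1
  have hal : aliquot m + m = ∑ d ∈ m.divisors, d := (Nat.sum_divisors_eq_sum_properDivisors_add_self).symm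
  obtain ⟨p, hp, hpm, hpτ⟩ := hLP
  have hp2 : p ≠ 2 := by
    rintro rfl
    have e1 : (8 : ℝ) ≤ (m : ℝ) ^ (1 - θ + ρ) := by
      have e2 : (1 : ℝ) ≤ m := by exact_mod_cast (by omega : 1 ≤ m)
      calc (8 : ℝ) = ((8 : ℝ) ^ (10 : ℕ)) ^ (1 / 10 : ℝ) := by
            rw [← Real.rpow_natCast, ← Real.rpow_mul (by norm_num)]
            norm_num
        _ ≤ (m : ℝ) ^ (1 / 10 : ℝ) := by
            apply Real.rpow_le_rpow (by positivity) _ (by norm_num)
            exact_mod_cast h8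
        _ ≤ (m : ℝ) ^ (1 - θ + ρ) := Real.rpow_le_rpow_of_exponent_le e2 (by linarith)
    have e3 : ((2 : ℕ) : ℝ) = 2 := by norm_num
    rw [e3] at hpτ
    linarith
  have hsige : 2 ∣ ∑ d ∈ m.divisors, d := Pool.Agent.N733.AQ.sigma_even hp hp2 hpm (g3 p hpτ)
  constructor
  · -- the aliquot sum
    have e1 : (-1 * (m : ℤ) + 1 * ((∑ d ∈ m.divisors, d : ℕ) : ℤ)) = (aliquot m : ℤ) := by
      rw [← hal]
      push_cast
      ring
    have e3 : Even (aliquot m) := by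
      rw [even_iff_two_dvd]
      have h4 : 2 ∣ aliquot m + m := by rw [hal]; exact hsige
      exact (Nat.dvd_add_left ⟨t, ht'⟩).1 h4
    have e2 : Q (aliquot m) := by
      have := g1 ⟨p, hp, hpm, hpτ⟩ (by
        rw [e1]
        refine hdiv.trans ?_
        push_cast
        have : t ≤ aliquot m := by omega
        have : (t : ℝ) ≤ aliquot m := by exact_mod_cast this
        linarith) (by
        rw [e1]
        exact_mod_cast e3)
      rw [e1, Int.toNat_natCast] at this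
      exact this
    exact ⟨by omega, e3, e2⟩
  · have e1 : (1 * (m : ℤ) + -1 * (Nat.totient m : ℤ)) = ((m - Nat.totient m : ℕ) : ℤ) := by
      rw [Nat.cast_sub (by omega)]
      ring
    have e3 : Even (m - Nat.totient m) := by
      rw [Nat.even_sub (by omega)]
      exact ⟨fun _ => htote, fun _ => ⟨t, ht⟩⟩
    have e2 : Q (m - Nat.totient m) := by
      have := g2 ⟨p, hp, hpm, hpτ⟩ (by
        rw [e1]
        refine hdiv.trans ?_
        push_cast
        have h4 : t ≤ m - Nat.totient m := by omega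
        have h5 : (t : ℝ) ≤ ((m - Nat.totient m : ℕ) : ℝ) := by exact_mod_cast h4
        rw [htr]
        push_cast [Nat.cast_sub (show Nat.totient m ≤ m by omega)] at h5 ⊢
        linarith) (by
        rw [e1]
        exact_mod_cast e3)
      rw [e1, Int.toNat_natCast] at this
      exact this
    exact ⟨by omega, e3, e2⟩

open Classical in
theorem density (θ : ℝ) (hθ1 : θ < 1) (R : ℕ → Prop)
    (hR : ∀ η : ℝ, 0 < η → AlmostAll (fun m => Even m → LargePrime (1 - θ + η) m → R m)) (δ : ℝ) (hδ : δ < θ) :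
    ∃ N₀ : ℕ, ∀ N : ℕ, N₀ ≤ N → δ * (N / 2) ≤ (((Icc 1 N).filter (fun m => Even m ∧ R m)).card : ℝ) := by
  obtain ⟨η, hη⟩ : ∃ η : ℝ, η = (θ - δ) / 4 := ⟨_, rfl⟩
  have hη0 : 0 < η := by rw [hη]; linarith
  have h1 := (almostAll_iff _).1 (hR η hη0) (η / 4) (by positivity)
  obtain ⟨N₁, hN₁⟩ := h1
  obtain ⟨M₀, hM₀⟩ := Pool.Agent.N733.AQ.few_smooth (1 - θ + η) η (by positivity) hη0
  obtain ⟨N₂, hN₂⟩ := exists_nat_gt (2 / η)
  refine ⟨N₁ + 2 * M₀ + N₂ + 2, fun N hN => ?_⟩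
  have hb := hN₁ N (by omega)
  obtain ⟨M, hM⟩ : ∃ M, M = N / 2 := ⟨_, rfl⟩
  have hc := hM₀ M (by omega)
  -- the even integers
  have hsub : (Icc 1 M).image (fun t => 2 * t) ⊆
      ((Icc 1 N).filter (fun m => Even m ∧ R m) ∪
        (Icc 1 N).filter (fun m => ¬ (Even m → LargePrime (1 - θ + η) m → R m))) ∪
        ((Icc 1 M).filter (fun m : ℕ => ∀ p : ℕ, p.Prime → p ∣ m → (p : ℝ) ≤ ((2 * M : ℕ) : ℝ) ^ (1 - θ + η))).image
          (fun t => 2 * t) := by
    intro m hm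
    rw [mem_image] at hm
    obtain ⟨t, ht, rfl⟩ := hm
    rw [mem_Icc] at ht
    have hmem : 2 * t ∈ Icc 1 N := by rw [mem_Icc]; omega
    rw [mem_union, mem_union, mem_filter, mem_filter, mem_image]
    by_cases h2 : R (2 * t)
    · left; left
      exact ⟨hmem, even_two_mul t, h2⟩
    · by_cases h3 : LargePrime (1 - θ + η) (2 * t)
      · left; right
        exact ⟨hmem, fun h => h2 (h (even_two_mul t) h3)⟩
      · right
        refine ⟨t, ?_, rfl⟩
        rw [mem_filter, mem_Icc]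
        refine ⟨ht, fun p hp hpt => ?_⟩
        by_contra h4
        push Not at h4
        apply h3
        refine ⟨p, hp, Dvd.dvd.mul_left hpt 2, ?_⟩
        refine le_trans ?_ h4.le
        apply Real.rpow_le_rpow (by positivity) _ (by positivity)
        exact_mod_cast (by omega : 2 * t ≤ 2 * M)
  have hcard : ((Icc 1 M).image (fun t => 2 * t)).card = M := by
    rw [card_image_of_injective _ (fun a b h => by simpa using h), Nat.card_Icc, Nat.add_sub_cancel]
  have h2 := card_le_card hsub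
  rw [hcard] at h2
  have h3 : (M : ℝ) ≤ ((((Icc 1 N).filter (fun m => Even m ∧ R m)).card : ℝ) +
      (((Icc 1 N).filter (fun m => ¬ (Even m → LargePrime (1 - θ + η) m → R m))).card : ℝ)) +
      (((Icc 1 M).filter (fun m : ℕ => ∀ p : ℕ, p.Prime → p ∣ m → (p : ℝ) ≤ ((2 * M : ℕ) : ℝ) ^ (1 - θ + η))).card : ℝ) := by
    have h4 := h2.trans ((card_union_le _ _).trans (add_le_add (card_union_le _ _) card_image_le))
    exact_mod_cast h4
  have hMN : (N : ℝ) / 2 - 1 ≤ M := by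
    have : N ≤ 2 * M + 1 := by omega
    have : (N : ℝ) ≤ 2 * M + 1 := by exact_mod_cast this
    linarith
  have hMN2 : (M : ℝ) ≤ N / 2 := by
    have : 2 * M ≤ N := by omega
    have : (2 : ℝ) * M ≤ N := by exact_mod_cast this
    linarith
  have hN2 : 2 / η ≤ N := by
    have : (N₂ : ℝ) ≤ N := by exact_mod_cast (by omega : N₂ ≤ N)
    linarith
  rw [div_le_iff₀ hη0] at hN2
  have e1 : (θ - 2 * η) * M ≤ (M : ℝ) - (1 - θ + η + η) * M := by linarith
  have e2 : (θ - 2 * η) * ((N : ℝ) / 2 - 1) ≤ (θ - 2 * η) * M ∨ θ - 2 * η < 0 := by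
    rcases le_or_gt 0 (θ - 2 * η) with h | h
    · left
      exact mul_le_mul_of_nonneg_left hMN h
    · right
      exact h
  have hb' : (((Icc 1 N).filter (fun m => ¬ (Even m → LargePrime (1 - θ + η) m → R m))).card : ℝ) ≤ η / 4 * N :=
    le_trans (Nat.cast_le.2 (card_mono' (fun m hm => hm))) hb
  have hc' : (((Icc 1 M).filter (fun m : ℕ => ∀ p : ℕ, p.Prime → p ∣ m →
      (p : ℝ) ≤ ((2 * M : ℕ) : ℝ) ^ (1 - θ + η))).card : ℝ) ≤ (1 - θ + η + η) * M :=
    le_trans (Nat.cast_le.2 (card_mono' (fun m hm => hm))) hc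
  rcases e2 with e2 | e2
  · have e3 : δ = θ - 4 * η := by rw [hη]; ring
    rw [e3]
    linarith
  · have e3 : δ < 0 := by
      have : δ = θ - 4 * η := by rw [hη]; ring
      linarith
    have e4 : δ * ((N : ℝ) / 2) ≤ 0 := mul_nonpos_of_nonpos_of_nonneg e3.le (by positivity)
    exact e4.trans (Nat.cast_nonneg _)

end Pool.Agent.U365.AQG
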